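import Pool.Agent.N428.HD.Psd

set_option autoImplicit false
set_option linter.unusedSectionVars false

namespace Pool.Agent.N428.HD

open Finset

section

variable {V : Type} [Fintype V] [DecidableEq V]

/-- indicator -/
def ind (W : Finset V) : V → ℝ := fun v => if v ∈ W then 1 else 0

open Classical in
/-- adjacency matrix -/
noncomputable def adj (G : SimpleGraph V) : V → V → ℝ := fun x y => if G.Adj x y then 1 else 0

theorem adj_symm (G : SimpleGraph V) (x y : V) : adj G x y = adj G y x := by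
  unfold adj
  have h := G.adj_comm x y
  by_cases h1 : G.Adj x y
  · rw [if_pos h1, if_pos (h.1 h1)]
  · rw [if_neg h1, if_neg (fun h2 => h1 (h.2 h2))]

theorem adj_self (G : SimpleGraph V) (x : V) : adj G x x = 0 := by
  simp [adj]

theorem adj_01 (G : SimpleGraph V) (x y : V) : 0 ≤ adj G x y ∧ adj G x y ≤ 1 := by
  unfold adj
  split_ifs <;> simp

theorem B_sub (A : V → V → ℝ) (hA : ∀ x y, A x y = A y x) (f g : V → ℝ) :
    B A (fun v => f v - g v) (fun v => f v - g v) = B A f f - 2 * B A f g + B A g g := by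
  have := B_line A hA f g (-1)
  have h2 : (fun v => f v + -1 * g v) = fun v => f v - g v := by
    funext v; ring
  rw [h2] at this
  rw [this]; ring

theorem B_sum_left (A : V → V → ℝ) (U : Finset V) (F : V → V → ℝ) (g : V → ℝ) :
    ∑ v ∈ U, B A (F v) g = B A (fun x => ∑ v ∈ U, F v x) g := by
  unfold B
  rw [sum_comm]
  apply sum_congr rfl; intro x _
  rw [sum_comm]
  apply sum_congr rfl; intro y _
  rw [← mul_sum, ← sum_mul]

/-- walks of length three -/
theorem walk3 (A : V → V → ℝ) (hA : ∀ x y, A x y = A y x) (h01 : ∀ x y, 0 ≤ A x y ∧ A x y ≤ 1)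
    (U : Finset V) (γ n : ℝ) (hn : (Fintype.card V : ℝ) = n) (hγ : 0 < γ) (hn0 : 0 < n)
    (hU : γ * n ^ 2 ≤ B A (ind U) (ind U)) (D : V → ℝ)
    (hD : ∀ x, D x = ind U x * ∑ y, A x y * ind U y) :
    γ ^ 3 / 32 * n ^ 4 ≤ B A D D := by
  set T : ℝ := γ * n / 4 with hT
  have hTpos : 0 < T := by positivity
  have hi : ∀ x, 0 ≤ ind U x ∧ ind U x ≤ 1 := by
    intro x; unfold ind; split_ifs <;> simp
  have hD0 : ∀ x, 0 ≤ D x := by
    intro x
    rw [hD]
    exact mul_nonneg (hi x).1 (sum_nonneg fun y _ => mul_nonneg (h01 x y).1 (hi y).1)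
  -- small-degree part
  have hsmall : ∑ x, ∑ y, (if D x < T then A x y * (ind U x * ind U y) else 0) ≤ n * T := by
    have h1 : ∀ x, ∑ y, (if D x < T then A x y * (ind U x * ind U y) else 0) ≤ T := by
      intro x
      by_cases h : D x < T
      · simp only [if_pos h]
        have : ∑ y, A x y * (ind U x * ind U y) = D x := by
          rw [hD, mul_sum]
          apply sum_congr rfl; intro y _; ring
        rw [this]; exact h.le
      · simp only [if_neg h, sum_const_zero]; exact hTpos.le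
    calc _ ≤ ∑ _x : V, T := sum_le_sum fun x _ => h1 x
      _ = n * T := by rw [sum_const, card_univ, nsmul_eq_mul, hn]
  have hsmall2 : ∑ x, ∑ y, (if D y < T then A x y * (ind U x * ind U y) else 0) ≤ n * T := by
    rw [sum_comm]
    refine le_trans (le_of_eq ?_) hsmall
    apply sum_congr rfl; intro x _
    apply sum_congr rfl; intro y _
    rw [hA y x]
    split_ifs <;> ring
  have hpt : B A (ind U) (ind U) ≤ B A D D / T ^ 2 +
      ∑ x, ∑ y, (if D x < T then A x y * (ind U x * ind U y) else 0) +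
      ∑ x, ∑ y, (if D y < T then A x y * (ind U x * ind U y) else 0) := by
    unfold B
    rw [sum_div, ← sum_add_distrib, ← sum_add_distrib]
    apply sum_le_sum; intro x _
    rw [sum_div, ← sum_add_distrib, ← sum_add_distrib]
    apply sum_le_sum; intro y _
    have a0 := h01 x y
    have i0 := hi x
    have i1 := hi y
    have d0 := hD0 x
    have d1 := hD0 y
    have p0 : 0 ≤ ind U x * ind U y := mul_nonneg i0.1 i1.1
    have p1 : 0 ≤ A x y * (ind U x * ind U y) := mul_nonneg a0.1 p0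
    have p2 : 0 ≤ A x y * (D x * D y) / T ^ 2 :=
      div_nonneg (mul_nonneg a0.1 (mul_nonneg d0 d1)) (by positivity)
    by_cases hx : D x < T
    · rw [if_pos hx]
      split_ifs <;> linarith
    · rw [if_neg hx]
      by_cases hy : D y < T
      · rw [if_pos hy]
        linarith
      · rw [if_neg hy]
        push Not at hx hy
        have h3 : T ^ 2 ≤ D x * D y := by nlinarith
        have h4 : ind U x * ind U y ≤ 1 := by nlinarith [i0.2, i1.2, i0.1, i1.1]
        have h5 : A x y * (ind U x * ind U y) ≤ A x y * (D x * D y) / T ^ 2 := by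
          rw [le_div_iff₀ (by positivity), mul_assoc]
          apply mul_le_mul_of_nonneg_left _ a0.1
          nlinarith
        linarith
  have h6 : γ * n ^ 2 - 2 * (n * T) ≤ B A D D / T ^ 2 := by linarith
  have h7 : γ * n ^ 2 - 2 * (n * T) = γ * n ^ 2 / 2 := by rw [hT]; ring
  rw [h7, le_div_iff₀ (by positivity)] at h6
  have h8 : γ * n ^ 2 / 2 * T ^ 2 = γ ^ 3 / 32 * n ^ 4 := by rw [hT]; ring
  linarith

/-- neighbourhoods with many edges -/
theorem nbhd (A : V → V → ℝ) (hA : ∀ x y, A x y = A y x) (h01 : ∀ x y, 0 ≤ A x y ∧ A x y ≤ 1)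
    (U : Finset V) (γ δ n : ℝ) (hn : (Fintype.card V : ℝ) = n) (hγ : 0 < γ) (hn0 : 0 < n)
    (hδ : δ ≤ γ ^ 3 / 32) (hδ0 : 0 < δ)
    (hpsd : ∀ f : V → ℝ, (∀ v, |f v| ≤ 1) → -δ * n ^ 2 ≤ B A f f)
    (hU : γ * n ^ 2 ≤ B A (ind U) (ind U)) :
    ∃ v ∈ U, γ ^ 3 / 64 * n ^ 2 ≤ B A (fun y => A v y * ind U y) (fun y => A v y * ind U y) := by
  by_contra hcon
  push Not at hcon
  have hi : ∀ x, 0 ≤ ind U x ∧ ind U x ≤ 1 := by
    intro x; unfold ind; split_ifs <;> simp
  set F : V → V → ℝ := fun v y => A v y * ind U y with hF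
  have hF01 : ∀ v y, 0 ≤ F v y ∧ F v y ≤ 1 := by
    intro v y
    have a := h01 v y
    have b := hi y
    exact ⟨mul_nonneg a.1 b.1, by nlinarith [mul_le_mul a.2 b.2 b.1 (by norm_num : (0:ℝ) ≤ 1)]⟩
  have hUne : U.Nonempty := by
    by_contra hne
    rw [not_nonempty_iff_eq_empty] at hne
    have : B A (ind U) (ind U) = 0 := by
      rw [hne]; simp [B, ind]
    rw [this] at hU
    have : 0 < γ * n ^ 2 := by positivity
    linarith
  have hUcard : (U.card : ℝ) ≤ n := by
    rw [← hn]; exact_mod_cast card_le_univ U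
  have hUpos : (0 : ℝ) < U.card := by exact_mod_cast card_pos.2 hUne
  -- sum over pairs
  have h1 : ∑ v ∈ U, ∑ w ∈ U, (-δ * n ^ 2) ≤
      ∑ v ∈ U, ∑ w ∈ U, (B A (F v) (F v) - 2 * B A (F v) (F w) + B A (F w) (F w)) := by
    apply sum_le_sum; intro v _
    apply sum_le_sum; intro w _
    rw [← B_sub A hA]
    apply hpsd
    intro x
    rw [abs_le]
    have := hF01 v x
    have := hF01 w x
    constructor <;> linarith
  set D : V → ℝ := fun x => ∑ v ∈ U, F v x with hD
  have h2 : ∑ v ∈ U, ∑ w ∈ U, B A (F v) (F w) = B A D D := by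
    have : ∀ v ∈ U, ∑ w ∈ U, B A (F v) (F w) = B A (F v) D := by
      intro v _
      rw [B_symm A hA (F v) D, ← B_sum_left]
      apply sum_congr rfl; intro w _
      exact B_symm A hA _ _
    rw [sum_congr rfl this, B_sum_left]
  have h3 : γ ^ 3 / 32 * n ^ 4 ≤ B A D D := by
    apply walk3 A hA h01 U γ n hn hγ hn0 hU D
    intro x
    rw [hD, mul_sum]
    have : ∑ v ∈ U, F v x = ∑ v, (if v ∈ U then F v x else 0) := by
      rw [sum_ite_mem, univ_inter]
    show ∑ v ∈ U, F v x = _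
    rw [this]
    apply sum_congr rfl; intro v _
    simp only [hF, ind]
    rw [hA v x]
    split_ifs <;> ring
  have h4 : ∑ v ∈ U, ∑ w ∈ U, (B A (F v) (F v) - 2 * B A (F v) (F w) + B A (F w) (F w)) =
      2 * U.card * ∑ v ∈ U, B A (F v) (F v) - 2 * B A D D := by
    simp only [sum_add_distrib, sum_sub_distrib, sum_const, nsmul_eq_mul, ← mul_sum, h2]
    ring
  rw [h4] at h1
  simp only [sum_const, nsmul_eq_mul] at h1
  have h5 : ∑ v ∈ U, B A (F v) (F v) < ∑ _v ∈ U, γ ^ 3 / 64 * n ^ 2 :=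
    sum_lt_sum_of_nonempty hUne fun v hv => hcon v hv
  rw [sum_const, nsmul_eq_mul] at h5
  have h6 : 2 * U.card * ∑ v ∈ U, B A (F v) (F v) < 2 * U.card * (U.card * (γ ^ 3 / 64 * n ^ 2)) :=
    mul_lt_mul_of_pos_left h5 (by positivity)
  have h7 : (U.card : ℝ) * U.card ≤ n ^ 2 := by nlinarith
  have h8 : 2 * U.card * (U.card * (γ ^ 3 / 64 * n ^ 2)) ≤ γ ^ 3 / 32 * n ^ 4 := by
    have : 2 * (U.card : ℝ) * (U.card * (γ ^ 3 / 64 * n ^ 2)) =
        (U.card * U.card) * (γ ^ 3 / 32 * n ^ 2) := by ring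
    rw [this]
    have := mul_le_mul_of_nonneg_right h7 (by positivity : 0 ≤ γ ^ 3 / 32 * n ^ 2)
    nlinarith
  have h9 : (U.card : ℝ) * (U.card * (-δ * n ^ 2)) ≥ -(γ ^ 3 / 32 * n ^ 4) := by
    have : (U.card : ℝ) * (U.card * (-δ * n ^ 2)) = -((U.card * U.card) * (δ * n ^ 2)) := by ring
    rw [this]
    have h10 : (U.card : ℝ) * U.card * (δ * n ^ 2) ≤ n ^ 2 * (γ ^ 3 / 32 * n ^ 2) := by
      apply mul_le_mul h7 _ (by positivity) (by positivity)
      exact mul_le_mul_of_nonneg_right hδ (by positivity)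
    nlinarith
  linarith

end

/-- graphs with almost positive semidefinite adjacency form contain cliques inside every dense set -/
theorem clique_of_psd (k : ℕ) : ∀ γ : ℝ, 0 < γ → ∃ δ : ℝ, 0 < δ ∧
    ∀ (V : Type) [Fintype V] [DecidableEq V] (G : SimpleGraph V), Nonempty V →
      (∀ f : V → ℝ, (∀ v, |f v| ≤ 1) → -δ * (Fintype.card V : ℝ) ^ 2 ≤ B (adj G) f f) →
      ∀ U : Finset V, γ * (Fintype.card V : ℝ) ^ 2 ≤ B (adj G) (ind U) (ind U) →
        ∃ s : Finset V, s ⊆ U ∧ G.IsNClique k s := by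
  induction k with
  | zero =>
    intro γ _
    refine ⟨1, one_pos, fun V _ _ G _ _ U _ => ⟨∅, empty_subset _, ?_⟩⟩
    rw [SimpleGraph.isNClique_iff]
    simp
  | succ k ih =>
    intro γ hγ
    obtain ⟨δ', hδ', h⟩ := ih (γ ^ 3 / 64) (by positivity)
    refine ⟨min δ' (γ ^ 3 / 32), lt_min hδ' (by positivity), fun V _ _ G hV hpsd U hU => ?_⟩
    have hn0 : (0 : ℝ) < Fintype.card V := by exact_mod_cast Fintype.card_pos
    obtain ⟨v, hvU, hv⟩ := nbhd (adj G) (adj_symm G) (adj_01 G) U γ (min δ' (γ ^ 3 / 32))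
      (Fintype.card V) rfl hγ hn0 (min_le_right _ _) (lt_min hδ' (by positivity)) hpsd hU
    classical
    set N : Finset V := U.filter fun y => G.Adj v y with hN
    have hNi : (fun y => adj G v y * ind U y) = ind N := by
      funext y
      simp only [adj, ind, hN, mem_filter]
      by_cases h1 : G.Adj v y <;> by_cases h2 : y ∈ U <;> simp [h1, h2]
    rw [hNi] at hv
    obtain ⟨s, hs, hs2⟩ := h V G hV (fun f hf => by
      have h1 := hpsd f hf
      have h2 : min δ' (γ ^ 3 / 32) ≤ δ' := min_le_left _ _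
      have h3 : (0 : ℝ) ≤ (Fintype.card V : ℝ) ^ 2 := by positivity
      nlinarith) N hv
    refine ⟨insert v s, ?_, ?_⟩
    · intro x hx
      rw [mem_insert] at hx
      rcases hx with rfl | hx
      · exact hvU
      · exact (mem_filter.1 (hs hx)).1
    · exact hs2.insert fun b hb => (mem_filter.1 (hs hb)).2

end Pool.Agent.N428.HD
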