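import Pool.Agent.N428.HD.Quad

set_option autoImplicit false
set_option linter.unusedSectionVars false

namespace Pool.Agent.N428.HD

open Finset

variable {V : Type*} [Fintype V] [DecidableEq V]

theorem B_le (A : V → V → ℝ) (h01 : ∀ x y, 0 ≤ A x y ∧ A x y ≤ 1) (f : V → ℝ) (r : ℝ)
    (hr : 0 ≤ r) (hf : ∀ v, |f v| ≤ r) : B A f f ≤ r ^ 2 * (Fintype.card V : ℝ) ^ 2 := by
  unfold B
  have h1 : ∀ x y, A x y * (f x * f y) ≤ r ^ 2 := by
    intro x y
    have h2 : f x * f y ≤ r * r := by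
      calc f x * f y ≤ |f x * f y| := le_abs_self _
        _ = |f x| * |f y| := abs_mul _ _
        _ ≤ r * r := mul_le_mul (hf x) (hf y) (abs_nonneg _) hr
    rcases le_total 0 (f x * f y) with h | h
    · have := mul_le_mul_of_nonneg_right (h01 x y).2 h
      nlinarith
    · have := mul_nonpos_of_nonneg_of_nonpos (h01 x y).1 h
      nlinarith [sq_nonneg r]
  calc ∑ x, ∑ y, A x y * (f x * f y) ≤ ∑ _x : V, ∑ _y : V, r ^ 2 :=
        sum_le_sum fun x _ => sum_le_sum fun y _ => h1 x y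
    _ = r ^ 2 * (Fintype.card V : ℝ) ^ 2 := by
        simp only [sum_const, card_univ, nsmul_eq_mul]
        ring

/-- the main consequence of the half-set condition -/
theorem psd (A : V → V → ℝ) (hA : ∀ x y, A x y = A y x) (h0 : ∀ x, A x x = 0)
    (h01 : ∀ x y, 0 ≤ A x y ∧ A x y ≤ 1) (c η τ : ℝ) (hη : 0 < η) (hτ : 0 < τ) (hτ1 : τ ≤ 1)
    (hn : 2 ≤ Fintype.card V)
    (htot : B A (fun _ => 1) (fun _ => 1) ≤ 2 * c * (Fintype.card V : ℝ) ^ 2)
    (hL : ∀ W : Finset V, W.card = Fintype.card V / 2 →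
      (c / 2 - η) * (Fintype.card V : ℝ) ^ 2 ≤
        B A (fun v => if v ∈ W then 1 else 0) (fun v => if v ∈ W then 1 else 0)) :
    ∀ f : V → ℝ, (∀ v, |f v| ≤ 1) →
      -(64 * (η + η / (2 * τ) + τ / 32)) * (Fintype.card V : ℝ) ^ 2 ≤ B A f f := by
  set n : ℝ := (Fintype.card V : ℝ) with hndef
  have hn2 : (2 : ℝ) ≤ n := by rw [hndef]; exact_mod_cast hn
  have hn0 : 0 < n := by linarith
  set m : ℕ := Fintype.card V / 2 with hm
  set β : ℝ := (m : ℝ) / n with hβ
  have hm1 : (m : ℝ) ≤ n / 2 := by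
    have : 2 * m ≤ Fintype.card V := by omega
    have : (2 : ℝ) * m ≤ n := by rw [hndef]; exact_mod_cast this
    linarith
  have hm2 : n / 4 ≤ (m : ℝ) := by
    have : Fintype.card V ≤ 4 * m := by omega
    have : n ≤ 4 * (m : ℝ) := by rw [hndef]; exact_mod_cast this
    linarith
  have hβ1 : β ≤ 1 / 2 := by rw [hβ, div_le_iff₀ hn0]; linarith
  have hβ2 : 1 / 4 ≤ β := by rw [hβ, le_div_iff₀ hn0]; linarith
  have hβn : β * n = m := by rw [hβ]; field_simp
  have hpos : ∀ x y, 0 ≤ A x y := fun x y => (h01 x y).1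
  have hsumone : ∀ t : ℝ, ∑ _v : V, t = t * n := by
    intro t; rw [sum_const, card_univ, nsmul_eq_mul, mul_comm]
  -- step 1
  have s1 : ∀ g : V → ℝ, (∀ v, |g v| ≤ 1 / 4) → ∑ v, g v = 0 →
      -η * n ^ 2 ≤ 2 * β * B A (fun _ => 1) g + B A g g := by
    intro g hg hg0
    have h1 := rounding A hA h0 hpos m ((c / 2 - η) * n ^ 2) hL _ (fun v => β * 1 + 1 * g v) (by
      intro v
      have := abs_le.1 (hg v)
      constructor <;> linarith [this.1, this.2]) (by
      rw [sum_add_distrib, hsumone, ← mul_sum, hg0, mul_one, hβn]; ring) rfl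
    have h2 := B_line A hA (fun _ => β * 1) g 1
    have h3 : B A (fun _ => β * 1) (fun _ : V => β * 1) = β ^ 2 * B A (fun _ => 1) (fun _ => 1) := by
      rw [B_smul_left A β (fun _ => 1), B_smul_right A β _ (fun _ => 1)]
      ring
    have h4 : B A (fun _ => β * 1) g = β * B A (fun _ => 1) g := B_smul_left A β (fun _ => 1) g
    rw [h2, h3, h4] at h1
    have h5 : β ^ 2 * B A (fun _ => 1) (fun _ => 1) ≤ c / 2 * n ^ 2 := by
      have h6 : 0 ≤ B A (fun _ => 1) (fun _ => (1 : ℝ)) := by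
        unfold B
        exact sum_nonneg fun x _ => sum_nonneg fun y _ => by
          have := hpos x y; nlinarith
      have h7 : β ^ 2 ≤ 1 / 4 := by nlinarith
      calc β ^ 2 * B A (fun _ => 1) (fun _ => 1) ≤ 1 / 4 * B A (fun _ => 1) (fun _ => (1 : ℝ)) :=
            mul_le_mul_of_nonneg_right h7 h6
        _ ≤ 1 / 4 * (2 * c * n ^ 2) := by linarith
        _ = c / 2 * n ^ 2 := by ring
    linarith
  -- step 2
  have s2 : ∀ g : V → ℝ, (∀ v, |g v| ≤ 1 / 4) → ∑ v, g v = 0 → -η * n ^ 2 ≤ B A g g := by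
    intro g hg hg0
    have h1 := s1 g hg hg0
    have h2 := s1 (fun v => (-1 : ℝ) * g v) (by
      intro v; rw [neg_one_mul, abs_neg]; exact hg v) (by rw [← mul_sum, hg0]; ring)
    rw [B_smul_right, B_smul_left, B_smul_right] at h2
    linarith
  -- step 3
  have s3 : ∀ g : V → ℝ, (∀ v, |g v| ≤ 1 / 4) → ∑ v, g v = 0 →
      -(2 * (η / τ + τ / 16)) * n ^ 2 ≤ B A (fun _ => 1) g := by
    intro g hg hg0
    have h1 := s1 (fun v => τ * g v) (by
      intro v
      rw [abs_mul, abs_of_pos hτ]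
      have := hg v
      have h2 := abs_nonneg (g v)
      nlinarith) (by rw [← mul_sum, hg0]; ring)
    rw [B_smul_right, B_smul_left, B_smul_right] at h1
    have h2 := B_le A h01 g (1 / 4) (by norm_num) hg
    rw [← hndef] at h2
    have h3 : -(η + τ ^ 2 / 16) * n ^ 2 ≤ (2 * β * τ) * B A (fun _ => 1) g := by
      have h4 : τ ^ 2 * B A g g ≤ τ ^ 2 * ((1 / 4) ^ 2 * n ^ 2) :=
        mul_le_mul_of_nonneg_left h2 (sq_nonneg _)
      nlinarith
    by_contra hcon
    push Not at hcon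
    have h5 : 0 < 2 * β * τ := by positivity
    have h6 := mul_lt_mul_of_pos_left hcon h5
    have h7 : (2 * β * τ) * (-(2 * (η / τ + τ / 16)) * n ^ 2) =
        -(4 * β) * (η + τ ^ 2 / 16) * n ^ 2 := by
      field_simp
      ring
    rw [h7] at h6
    have h8 : -(4 * β) * (η + τ ^ 2 / 16) * n ^ 2 ≤ -(η + τ ^ 2 / 16) * n ^ 2 := by
      have h9 : 0 ≤ (η + τ ^ 2 / 16) * n ^ 2 := by positivity
      nlinarith
    linarith
  have s3' : ∀ g : V → ℝ, (∀ v, |g v| ≤ 1 / 4) → ∑ v, g v = 0 →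
      |B A (fun _ => 1) g| ≤ 2 * (η / τ + τ / 16) * n ^ 2 := by
    intro g hg hg0
    rw [abs_le]
    have h1 := s3 g hg hg0
    have h2 := s3 (fun v => (-1 : ℝ) * g v) (by
      intro v; rw [neg_one_mul, abs_neg]; exact hg v) (by rw [← mul_sum, hg0]; ring)
    rw [B_smul_right] at h2
    constructor <;> linarith
  -- step 4
  have s4 : ∀ f : V → ℝ, (∀ v, |f v| ≤ 1 / 8) →
      -(η + η / (2 * τ) + τ / 32) * n ^ 2 ≤ B A f f := by
    intro f hf
    set σ : ℝ := (∑ v, f v) / n with hσ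
    have hσ1 : |σ| ≤ 1 / 8 := by
      rw [hσ, abs_div, abs_of_pos hn0, div_le_iff₀ hn0]
      calc |∑ v, f v| ≤ ∑ v, |f v| := abs_sum_le_sum_abs _ _
        _ ≤ ∑ _v : V, (1 / 8 : ℝ) := sum_le_sum fun v _ => hf v
        _ = 1 / 8 * n := hsumone _
    have hg : ∀ v, |f v - σ| ≤ 1 / 4 := by
      intro v
      calc |f v - σ| ≤ |f v| + |σ| := abs_sub _ _
        _ ≤ 1 / 4 := by linarith [hf v]
    have hg0 : ∑ v, (f v - σ) = 0 := by
      rw [sum_sub_distrib, hsumone, hσ]; field_simp; ring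
    have h1 := B_line A hA (fun v => f v - σ) (fun _ => 1) σ
    have h2 : (fun v => (fun v => f v - σ) v + σ * (fun _ : V => (1 : ℝ)) v) = f := by
      funext v; ring
    rw [h2] at h1
    rw [h1, B_symm A hA (fun v => f v - σ) (fun _ => 1)]
    have h3 := s2 _ hg hg0
    have h4 := s3' _ hg hg0
    have h6 : 0 ≤ B A (fun _ => 1) (fun _ => (1 : ℝ)) := by
      unfold B
      exact sum_nonneg fun x _ => sum_nonneg fun y _ => by
        have := hpos x y; nlinarith
    have h7 : 0 ≤ σ ^ 2 * B A (fun _ => 1) (fun _ => (1 : ℝ)) := mul_nonneg (sq_nonneg _) h6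
    have h8 : -(1 / 4 * (2 * (η / τ + τ / 16) * n ^ 2)) ≤
        2 * σ * B A (fun _ => 1) (fun v => f v - σ) := by
      have h9 : |2 * σ * B A (fun _ => 1) (fun v => f v - σ)| ≤
          1 / 4 * (2 * (η / τ + τ / 16) * n ^ 2) := by
        rw [abs_mul, abs_mul, abs_two]
        apply mul_le_mul _ h4 (abs_nonneg _) (by norm_num)
        linarith
      have := (abs_le.1 h9).1
      linarith
    have h10 : 1 / 4 * (2 * (η / τ + τ / 16) * n ^ 2) = (η / (2 * τ) + τ / 32) * n ^ 2 := by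
      field_simp
      ring
    rw [h10] at h8
    linarith
  intro f hf
  have h1 := s4 (fun v => (1 / 8 : ℝ) * f v) (by
    intro v
    rw [abs_mul, abs_of_pos (by norm_num : (0 : ℝ) < 1 / 8)]
    have := hf v
    linarith)
  rw [B_smul_left, B_smul_right] at h1
  linarith

end Pool.Agent.N428.HD
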