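import Mathlib

/-!
Quadratic forms of graphs: rounding, and positivity from the half-set condition.
-/

set_option autoImplicit false
set_option linter.unusedSectionVars false

namespace Pool.Agent.N428.HD

open Finset

variable {V : Type*} [Fintype V] [DecidableEq V]

/-- the bilinear form of a matrix -/
def B (A : V → V → ℝ) (f g : V → ℝ) : ℝ := ∑ x, ∑ y, A x y * (f x * g y)

theorem B_add_left (A : V → V → ℝ) (f f' g : V → ℝ) :
    B A (fun v => f v + f' v) g = B A f g + B A f' g := by
  unfold B
  rw [← sum_add_distrib]
  apply sum_congr rfl; intro x _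
  rw [← sum_add_distrib]
  apply sum_congr rfl; intro y _
  ring

theorem B_symm (A : V → V → ℝ) (hA : ∀ x y, A x y = A y x) (f g : V → ℝ) : B A f g = B A g f := by
  unfold B
  rw [sum_comm]
  apply sum_congr rfl; intro x _
  apply sum_congr rfl; intro y _
  rw [hA y x]; ring

theorem B_smul_left (A : V → V → ℝ) (t : ℝ) (f g : V → ℝ) :
    B A (fun v => t * f v) g = t * B A f g := by
  unfold B
  rw [mul_sum]
  apply sum_congr rfl; intro x _
  rw [mul_sum]
  apply sum_congr rfl; intro y _
  ring

theorem B_smul_right (A : V → V → ℝ) (t : ℝ) (f g : V → ℝ) :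
    B A f (fun v => t * g v) = t * B A f g := by
  unfold B
  rw [mul_sum]
  apply sum_congr rfl; intro x _
  rw [mul_sum]
  apply sum_congr rfl; intro y _
  ring

theorem B_line (A : V → V → ℝ) (hA : ∀ x y, A x y = A y x) (f d : V → ℝ) (t : ℝ) :
    B A (fun v => f v + t * d v) (fun v => f v + t * d v) =
      B A f f + 2 * t * B A f d + t ^ 2 * B A d d := by
  have h2 : B A f d = B A d f := B_symm A hA f d
  have h3 : B A (fun v => f v + t * d v) (fun v => f v + t * d v) =
      B A f f + t * B A f d + t * B A d f + t ^ 2 * B A d d := by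
    unfold B
    rw [mul_sum, mul_sum, mul_sum, ← sum_add_distrib, ← sum_add_distrib, ← sum_add_distrib]
    apply sum_congr rfl; intro x _
    rw [mul_sum, mul_sum, mul_sum, ← sum_add_distrib, ← sum_add_distrib, ← sum_add_distrib]
    apply sum_congr rfl; intro y _
    ring
  rw [h3, ← h2]; ring

/-- the direction `e_a - e_b` -/
def dir (a b : V) : V → ℝ := fun v => (if v = a then 1 else 0) - (if v = b then 1 else 0)

theorem B_dir (A : V → V → ℝ) (hA : ∀ x y, A x y = A y x) (h0 : ∀ x, A x x = 0) (a b : V) :
    B A (dir a b) (dir a b) = - 2 * A a b := by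
  unfold B dir
  have : ∀ x y, A x y * (((if x = a then (1 : ℝ) else 0) - (if x = b then 1 else 0)) *
      ((if y = a then 1 else 0) - (if y = b then 1 else 0))) =
      (if x = a then (if y = a then A x y else 0) else 0) -
      (if x = a then (if y = b then A x y else 0) else 0) -
      (if x = b then (if y = a then A x y else 0) else 0) +
      (if x = b then (if y = b then A x y else 0) else 0) := by
    intro x y
    split_ifs <;> ring
  simp only [this, sum_add_distrib, sum_sub_distrib]
  simp only [sum_ite_irrel, sum_const_zero, sum_ite_eq', mem_univ, if_true, h0]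
  rw [hA b a]
  ring

theorem sum_dir (a b : V) : ∑ v, dir a b v = 0 := by
  unfold dir
  rw [sum_sub_distrib]
  simp

theorem dir_a (a b : V) (hab : a ≠ b) : dir a b a = 1 := by simp [dir, hab]
theorem dir_b (a b : V) (hab : a ≠ b) : dir a b b = -1 := by simp [dir, hab.symm]
theorem dir_ne (a b v : V) (ha : v ≠ a) (hb : v ≠ b) : dir a b v = 0 := by simp [dir, ha, hb]

/-- one rounding step -/
theorem round_step (A : V → V → ℝ) (hA : ∀ x y, A x y = A y x) (h0 : ∀ x, A x x = 0)
    (hpos : ∀ x y, 0 ≤ A x y) (h : V → ℝ) (h01 : ∀ v, 0 ≤ h v ∧ h v ≤ 1) (a b : V) (hab : a ≠ b)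
    (ha : 0 < h a ∧ h a < 1) (hb : 0 < h b ∧ h b < 1) (hα : B A h (dir a b) ≤ 0) :
    ∃ h' : V → ℝ, (∀ v, 0 ≤ h' v ∧ h' v ≤ 1) ∧ ∑ v, h' v = ∑ v, h v ∧ B A h' h' ≤ B A h h ∧
      (univ.filter fun v => 0 < h' v ∧ h' v < 1).card <
        (univ.filter fun v => 0 < h v ∧ h v < 1).card := by
  set t : ℝ := min (1 - h a) (h b) with ht
  have ht0 : 0 < t := lt_min (by linarith [ha.2]) hb.1
  have ht1 : t ≤ 1 - h a := min_le_left _ _
  have ht2 : t ≤ h b := min_le_right _ _
  refine ⟨fun v => h v + t * dir a b v, ?_, ?_, ?_, ?_⟩
  · intro v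
    show 0 ≤ h v + t * dir a b v ∧ h v + t * dir a b v ≤ 1
    by_cases hva : v = a
    · subst hva
      rw [dir_a _ _ hab]
      constructor <;> nlinarith [ha.1]
    · by_cases hvb : v = b
      · subst hvb
        rw [dir_b _ _ hab]
        constructor <;> nlinarith [hb.2]
      · rw [dir_ne _ _ _ hva hvb]
        simpa using h01 v
  · rw [sum_add_distrib, ← mul_sum, sum_dir]
    simp
  · rw [B_line A hA, B_dir A hA h0]
    have h1 : 2 * t * B A h (dir a b) ≤ 0 := by
      have := mul_nonneg ht0.le (neg_nonneg.2 hα)
      nlinarith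
    have h2 : t ^ 2 * (-2 * A a b) ≤ 0 := by
      have := mul_nonneg (sq_nonneg t) (hpos a b)
      nlinarith
    linarith
  · have hsub : (univ.filter fun v => 0 < h v + t * dir a b v ∧ h v + t * dir a b v < 1) ⊆
        (univ.filter fun v => 0 < h v ∧ h v < 1) := by
      intro v hv
      rw [mem_filter] at hv ⊢
      refine ⟨mem_univ _, ?_⟩
      by_cases hva : v = a
      · subst hva; exact ha
      · by_cases hvb : v = b
        · subst hvb; exact hb
        · rw [dir_ne _ _ _ hva hvb] at hv
          simpa using hv.2
    apply card_lt_card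
    refine ⟨hsub, fun hsub2 => ?_⟩
    have haI := hsub2 (mem_filter.2 ⟨mem_univ a, ha⟩)
    have hbI := hsub2 (mem_filter.2 ⟨mem_univ b, hb⟩)
    rw [mem_filter] at haI hbI
    beta_reduce at haI hbI
    rw [dir_a _ _ hab] at haI
    rw [dir_b _ _ hab] at hbI
    rcases min_choice (1 - h a) (h b) with hm | hm
    · have : t = 1 - h a := by rw [ht, hm]
      have := haI.2.2
      linarith
    · have : t = h b := by rw [ht, hm]
      have := hbI.2.1
      linarith

theorem B_neg_dir (A : V → V → ℝ) (h : V → ℝ) (a b : V) :
    B A h (dir b a) = - B A h (dir a b) := by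
  have : dir b a = fun v => (-1 : ℝ) * dir a b v := by
    funext v
    unfold dir
    ring
  rw [this, B_smul_right]
  ring

/-- rounding: a lower bound for all sets of size `m` gives it for all fractional sets -/
theorem rounding (A : V → V → ℝ) (hA : ∀ x y, A x y = A y x) (h0 : ∀ x, A x x = 0)
    (hpos : ∀ x y, 0 ≤ A x y) (m : ℕ) (L : ℝ)
    (hL : ∀ W : Finset V, W.card = m →
      L ≤ B A (fun v => if v ∈ W then 1 else 0) (fun v => if v ∈ W then 1 else 0)) :
    ∀ (n : ℕ) (h : V → ℝ), (∀ v, 0 ≤ h v ∧ h v ≤ 1) → ∑ v, h v = m →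
      (univ.filter fun v => 0 < h v ∧ h v < 1).card = n → L ≤ B A h h := by
  intro n
  induction n using Nat.strong_induction_on with
  | _ n ih =>
    intro h h01 hsum hcard
    by_cases h2 : 2 ≤ n
    · -- two fractional coordinates
      have : 1 < (univ.filter fun v => 0 < h v ∧ h v < 1).card := by omega
      obtain ⟨a, ha, b, hb, hab⟩ := Finset.one_lt_card.1 this
      rw [mem_filter] at ha hb
      rcases le_total (B A h (dir a b)) 0 with hα | hα
      · obtain ⟨h', h1, h2, h3, h4⟩ := round_step A hA h0 hpos h h01 a b hab ha.2 hb.2 hα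
        have := ih _ (by rw [← hcard]; exact h4) h' h1 (by rw [h2, hsum]) rfl
        linarith
      · have hα' : B A h (dir b a) ≤ 0 := by rw [B_neg_dir]; linarith
        obtain ⟨h', h1, h2, h3, h4⟩ := round_step A hA h0 hpos h h01 b a hab.symm hb.2 ha.2 hα'
        have := ih _ (by rw [← hcard]; exact h4) h' h1 (by rw [h2, hsum]) rfl
        linarith
    · -- at most one fractional coordinate
      have hint : ∀ v, ¬ (0 < h v ∧ h v < 1) → h v = if 1 ≤ h v then 1 else 0 := by
        intro v hv
        have := h01 v
        split_ifs with h1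
        · linarith
        · push Not at h1
          by_contra hne
          exact hv ⟨lt_of_le_of_ne this.1 (Ne.symm hne), h1⟩
      have hn0 : n = 0 := by
        by_contra hn0
        have hn1 : n = 1 := by omega
        rw [hn1] at hcard
        obtain ⟨a, ha⟩ := card_eq_one.1 hcard
        have haf : 0 < h a ∧ h a < 1 := by
          have : a ∈ (univ.filter fun v => 0 < h v ∧ h v < 1) := by rw [ha]; simp
          rw [mem_filter] at this
          exact this.2
        have hother : ∀ v ∈ univ.erase a, h v = ((if 1 ≤ h v then 1 else 0 : ℕ) : ℝ) := by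
          intro v hv
          have hv' : v ≠ a := (mem_erase.1 hv).1
          have : ¬ (0 < h v ∧ h v < 1) := by
            intro hf
            have : v ∈ (univ.filter fun v => 0 < h v ∧ h v < 1) := by
              rw [mem_filter]; exact ⟨mem_univ _, hf⟩
            rw [ha, mem_singleton] at this
            exact hv' this
          have h5 := hint v this
          by_cases h6 : 1 ≤ h v
          · rw [if_pos h6] at h5
            rw [if_pos h6]; simpa using h5
          · rw [if_neg h6] at h5
            rw [if_neg h6]; simpa using h5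
        have hs : ∑ v, h v = h a + ∑ v ∈ univ.erase a, h v :=
          (add_sum_erase univ h (mem_univ a)).symm
        rw [sum_congr rfl hother, ← Nat.cast_sum, hsum] at hs
        set s := ∑ v ∈ univ.erase a, (if 1 ≤ h v then 1 else 0 : ℕ)
        have h1 : (s : ℝ) < m := by linarith [haf.1]
        have h2 : (m : ℝ) < s + 1 := by linarith [haf.2]
        have h3 : s < m := by exact_mod_cast h1
        have h4 : m < s + 1 := by exact_mod_cast h2
        omega
      -- all integral
      rw [hn0, card_eq_zero] at hcard
      set W := univ.filter fun v => 1 ≤ h v with hW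
      have hh : h = fun v => if v ∈ W then 1 else 0 := by
        funext v
        have : ¬ (0 < h v ∧ h v < 1) := by
          intro hf
          have : v ∈ (univ.filter fun v => 0 < h v ∧ h v < 1) := by
            rw [mem_filter]; exact ⟨mem_univ _, hf⟩
          rw [hcard] at this
          simp at this
        have := hint v this
        rw [this, hW]
        simp
      have hWc : W.card = m := by
        have : ∑ v, h v = (W.card : ℝ) := by
          rw [hh, sum_ite_mem, univ_inter, sum_const, nsmul_eq_mul, mul_one]
        rw [this] at hsum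
        exact_mod_cast hsum
      have := hL W hWc
      rw [← hh] at this
      exact this

end Pool.Agent.N428.HD
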